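import Pool.Agent.Run7.h106.AC.WidApp

/-!
Self-avoiding polygons on the square lattice: analytic continuation, beyond the circle of
convergence, of the generating functions of the moments of the area.
-/

set_option autoImplicit false

namespace Pool.Agent.Results.MP_f6626d_co.MomentSeriesContinuation

open Filter Topology

/-- `ω` is an `n`-step self-avoiding walk on `ℤ²` started at the origin. -/
def IsSAW (n : ℕ) (ω : Fin (n + 1) → ℤ × ℤ) : Prop :=
  ω 0 = (0, 0) ∧
  (∀ i : Fin n, |(ω i.succ).1 - (ω i.castSucc).1| + |(ω i.succ).2 - (ω i.castSucc).2| = 1) ∧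
  Function.Injective ω

/-- the number of `n`-step self-avoiding walks on `ℤ²` started at the origin -/
noncomputable def c (n : ℕ) : ℕ := {ω | IsSAW n ω}.ncard

/-- a closed nearest-neighbour loop on `ℤ²` with `m` steps, rooted at the origin and oriented,
that visits no vertex twice -/
def IsLoop (m : ℕ) (f : ZMod m → ℤ × ℤ) : Prop :=
  f 0 = 0 ∧ Function.Injective f ∧
    ∀ i : ZMod m, |(f (i + 1)).1 - (f i).1| + |(f (i + 1)).2 - (f i).2| = 1

/-- the edge from `f k` to `f (k+1)` is horizontal, joins the columns `x = a` and `x = a + 1`, and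
has height larger than `b`: it lies above the unit cell `[a, a+1] × [b, b+1]` -/
def Above (m : ℕ) (f : ZMod m → ℤ × ℤ) (a b : ℤ) (k : ZMod m) : Prop :=
  (((f k).1 = a ∧ (f (k + 1)).1 = a + 1) ∨ ((f k).1 = a + 1 ∧ (f (k + 1)).1 = a)) ∧ b < (f k).2

/-- the unit cell `[a, a+1] × [b, b+1]` is enclosed by the loop: the vertical ray from the cell
upwards crosses an odd number of edges -/
def Encl (m : ℕ) (f : ZMod m → ℤ × ℤ) (c : ℤ × ℤ) : Prop :=
  Odd (Nat.card {k : ZMod m // Above m f c.1 c.2 k})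

/-- the area: the number of unit cells enclosed by the loop -/
noncomputable def area (m : ℕ) (f : ZMod m → ℤ × ℤ) : ℕ := Nat.card {c : ℤ × ℤ // Encl m f c}

/-- The sum of `φ` over the self-avoiding polygons of perimeter `2 n` up to translation, for a
function `φ` of loops which does not depend on the starting point and the orientation: every polygon
corresponds to `4 n` loops from the origin. -/
noncomputable def S (n : ℕ) (φ : (ZMod (2 * n) → ℤ × ℤ) → ℝ) : ℝ :=
  (∑ᶠ f ∈ {f : ZMod (2 * n) → ℤ × ℤ | IsLoop (2 * n) f}, φ f) / (4 * (n : ℝ))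

/-- `cos (2 arg z)` for `z ≠ 0` -/
noncomputable def cos2 (z : ℂ) : ℝ := (z ^ 2).re / ‖z‖ ^ 2

/-- The domain `|z| < (1 + δ (1 - cos (2 arg z))) / μ`: the disc of convergence enlarged at all
points of the circle of convergence except `±1/μ`. -/
def Dom (μ δ : ℝ) : Set ℂ := {z | μ * ‖z‖ < 1 + δ * (1 - cos2 z)}

open Pool.Agent.H976R2 Pool.Agent.N929.EZ Pool.Agent.H739K Run7.h106.AC

/-- **Theorem.** Let `μ` be the connective constant of `ℤ²`. There is `δ > 0` such that the open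
connected set `Dom μ δ`, which contains the disc `|z| < 1/μ` and all points of the circle
`|z| = 1/μ` except `1/μ` and `-1/μ`, has the following property for every `k ≥ 0`: the generating
function `G_k(z) = ∑_{n ≥ 2} p_{2n} E[A_n^k] z^(2n)` of the sums of the `k`-th powers of the areas of
the self-avoiding polygons of perimeter `2n` up to translation extends to a holomorphic function `F`
on `Dom μ δ`, and there is `K` such that `|F'(z)| ≤ K (1 + |F'(x)|)` for all `z` in `Dom μ δ` with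
`z² ∉ [0, ∞)`, where `x = (1 - δ (1 - cos (2 arg z))) / μ < 1/μ`. -/
theorem result : ∃ μ : ℝ, 1 ≤ μ ∧
    Tendsto (fun n : ℕ => (c n : ℝ) ^ (1 / (n : ℝ))) atTop (𝓝 μ) ∧
    ∃ δ : ℝ, 0 < δ ∧ δ ≤ 1 / 4 ∧
    (IsOpen (Dom μ δ) ∧ IsPreconnected (Dom μ δ) ∧ (∀ z : ℂ, μ * ‖z‖ < 1 → z ∈ Dom μ δ) ∧
      ∀ z : ℂ, μ * ‖z‖ = 1 → z ≠ ((1 / μ : ℝ) : ℂ) → z ≠ ((-(1 / μ) : ℝ) : ℂ) → z ∈ Dom μ δ) ∧
    ∀ k : ℕ, ∃ (F : ℂ → ℂ) (K : ℝ), DifferentiableOn ℂ F (Dom μ δ) ∧
      (∀ z : ℂ, μ * ‖z‖ < 1 →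
        HasSum (fun n : ℕ => (S (n + 2) (fun f => (area (2 * (n + 2)) f : ℝ) ^ k) : ℂ) *
          z ^ (2 * (n + 2))) (F z)) ∧
      ∀ z ∈ Dom μ δ, z ≠ 0 → cos2 z < 1 →
        ‖deriv F z‖ ≤ K * (1 + ‖deriv F (((1 - δ * (1 - cos2 z)) / μ : ℝ) : ℂ)‖) := by
  have hμ : 1 ≤ H981.mu := by linarith [Pool.Agent.H739K.mu_ge]
  obtain ⟨δ, hδ, hδ4, hpm⟩ := poly_main
  obtain ⟨d1, d2, d3, d4⟩ := dom_facts hδ
  refine ⟨H981.mu, hμ, c_lim, δ, hδ, hδ4, ⟨d1, d2, d3, d4⟩, fun k => ?_⟩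
  obtain ⟨K, hK, f, f1, f2⟩ := area_ac hδ hδ4 hpm k
  obtain ⟨F, F1, F2⟩ := poly_series hδ (G := Gk1 k)
    (fun w hw => by unfold Gk1; rw [if_neg hw]) f1
  refine ⟨F, K, fun z hz => (F1 z hz).differentiableAt.differentiableWithinAt, fun z hz => ?_,
    deriv_bound hδ hδ4 hK.le F1 f2⟩
  refine (congrArg (fun g => HasSum g (F z)) ?_).mp (F2 z hz)
  funext n
  unfold S
  rw [← loop_Gk (by omega) k]
  rfl

end Pool.Agent.Results.MP_f6626d_co.MomentSeriesContinuation
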