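import Pool.Agent.Run7.h738.PG.Cut

/-!
# Narrow fjords of the uniform self-avoiding polygon on the square lattice

For the uniform self-avoiding polygon of perimeter `2 n` the following holds with probability at
least `1 - exp (-x)`, for every `x ≥ 0` and every distance `w ≥ 1`, with an absolute constant `K`,
for all the arcs of the polygon and all the scales `l` at once.

* Between an arc of the polygon and its complement there are at most `K^w (log² n + x)` pairs of
  sites at distance at most `w`.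
* At most `K^w (n / l) (log² n + x)` pairs of sites at distance at most `w` are further than `l`
  from each other along the polygon.
* The chords of length at most `w` which cut off arcs of at most `l` steps cut off a total
  area of at most `K^w n l (log² n + x)`.
-/

set_option autoImplicit false

namespace Pool.Agent.Results.MP_f6626d_co.NearDoublePoints

/-- `f` is a self-avoiding polygon of perimeter `2 n`, with a root (which is the origin) and an
orientation: a closed nearest-neighbour walk of `2 n` steps which visits no vertex twice. (Every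
polygon, up to translation, has exactly `4 n` such descriptions, so that a uniform `f` is a uniform
polygon with a uniform root and orientation.) -/
def IsPolygon (n : ℕ) (f : ZMod (2 * n) → ℤ × ℤ) : Prop :=
  f 0 = 0 ∧ Function.Injective f ∧
    ∀ i : ZMod (2 * n), |(f (i + 1)).1 - (f i).1| + |(f (i + 1)).2 - (f i).2| = 1

/-- two points of `ℤ²` at `ℓ¹` distance at most `w` -/
def Close (w : ℕ) (p q : ℤ × ℤ) : Prop := |q.1 - p.1| + |q.2 - p.2| ≤ w

/-- the number of pairs of times `(i, j)` such that `i` is in the arc `s, s + 1, …, s + a - 1`, `j`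
is not in it, and `f i`, `f j` are close -/
noncomputable def cross (w : ℕ) {n : ℕ} (f : ZMod (2 * n) → ℤ × ℤ) (s : ZMod (2 * n)) (a : ℕ) : ℕ :=
  Nat.card {q : ZMod (2 * n) × ZMod (2 * n) //
    (q.1 - s).val < a ∧ a ≤ (q.2 - s).val ∧ Close w (f q.1) (f q.2)}

/-- the number of pairs of times `(i, j)` at distance more than `l` from each other (on the cycle
`ZMod (2 n)`) such that `f i`, `f j` are close -/
noncomputable def far (w : ℕ) {n : ℕ} (f : ZMod (2 * n) → ℤ × ℤ) (l : ℕ) : ℕ :=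
  Nat.card {q : ZMod (2 * n) × ZMod (2 * n) //
    l < (q.1 - q.2).val ∧ l < (q.2 - q.1).val ∧ Close w (f q.1) (f q.2)}

/-- the signed area of the closed polygonal line `f i, f (i+1), …, f (i+t), f i`, by the shoelace
formula: `(1/2) ∑_{k < t} det (f (i + k) - f i, f (i + k + 1) - f i)` -/
noncomputable def chordArea {n : ℕ} (f : ZMod (2 * n) → ℤ × ℤ) (i : ZMod (2 * n)) (t : ℕ) : ℝ :=
  ((∑ k ∈ Finset.range t,
    (((f (i + (k : ZMod (2 * n)))).1 - (f i).1) * ((f (i + (k : ZMod (2 * n)) + 1)).2 - (f i).2) -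
      ((f (i + (k : ZMod (2 * n)))).2 - (f i).2) * ((f (i + (k : ZMod (2 * n)) + 1)).1 - (f i).1)) :
      ℤ) : ℝ) / 2

open scoped Classical in
/-- the total area cut off by chords: the sum of `|chordArea f i t|` over all the times `i` and all
`1 ≤ t ≤ l` such that `f i` and `f (i + t)` are close -/
noncomputable def cutArea (w : ℕ) {n : ℕ} (f : ZMod (2 * n) → ℤ × ℤ) (l : ℕ) : ℝ :=
  ∑ i ∈ Finset.range (2 * n), ∑ t ∈ (Finset.Icc 1 l).filter
    (fun t : ℕ => Close w (f (i : ZMod (2 * n))) (f ((i : ZMod (2 * n)) + (t : ZMod (2 * n))))),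
      |chordArea f (i : ZMod (2 * n)) t|

theorem close_iff (w : ℕ) (p q : ℤ × ℤ) : Close w p q ↔ Run7.h738.ND.D p q ≤ w := by
  unfold Close Run7.h738.ND.D
  rw [Int.abs_eq_natAbs, Int.abs_eq_natAbs]
  omega

theorem cross_eq (w : ℕ) {n : ℕ} (f : ZMod (2 * n) → ℤ × ℤ) (s : ZMod (2 * n)) (a : ℕ) :
    cross w f s a = Run7.h738.PG.XA w f s a := by
  unfold cross Run7.h738.PG.XA
  simp only [close_iff]
  exact Nat.card_coe_set_eq _

theorem far_eq (w : ℕ) {n : ℕ} (f : ZMod (2 * n) → ℤ × ℤ) (l : ℕ) :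
    far w f l = Run7.h738.PG.FA w f l := by
  unfold far Run7.h738.PG.FA
  simp only [close_iff]
  exact Nat.card_coe_set_eq _

theorem cut_eq (w : ℕ) {n : ℕ} (f : ZMod (2 * n) → ℤ × ℤ) (l : ℕ) :
    cutArea w f l = Run7.h738.PG.cutA w f l := by
  unfold cutArea Run7.h738.PG.cutA
  refine Finset.sum_congr rfl fun i _ => ?_
  have h : ∀ t : ℕ, |chordArea f (i : ZMod (2 * n)) t| =
      |(Run7.h738.PG.sh f (i : ZMod (2 * n)) t : ℝ)| / 2 := by
    intro t
    unfold chordArea Run7.h738.PG.sh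
    rw [abs_div, abs_of_pos (by norm_num : (0 : ℝ) < 2)]
  simp only [h]
  refine Finset.sum_congr ?_ fun _ _ => rfl
  ext t
  simp only [Finset.mem_filter, close_iff]

/-- There is a constant `K > 1` such that, for every distance `w ≥ 1`, every `n ≥ 2` and every
`x ≥ 0`, a proportion at least `1 - exp (-x)` of the self-avoiding polygons of perimeter `2 n` has
all the following properties:
* for every arc of the polygon, at most `K^w (log² n + x)` pairs of close sites have one site on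
  the arc and the other one off it;
* for every `l ≥ 1`, at most `K^w (n / l) (log² n + x)` pairs of close sites are further than `l`
  from each other along the polygon;
* for every `1 ≤ l ≤ n`, the total area cut off by the chords between close sites which are at
  distance at most `l` along the polygon is at most `K^w n l (log² n + x)`. -/
theorem result : ∃ K : ℝ, 1 < K ∧ ∀ w n : ℕ, 1 ≤ w → 2 ≤ n → ∀ x : ℝ, 0 ≤ x →
    (1 - Real.exp (-x)) * (Nat.card {f : ZMod (2 * n) → ℤ × ℤ // IsPolygon n f} : ℝ) ≤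
    (Nat.card {f : ZMod (2 * n) → ℤ × ℤ // IsPolygon n f ∧
      (∀ (s : ZMod (2 * n)) (a : ℕ), (cross w f s a : ℝ) ≤ K ^ w * (Real.log n ^ 2 + x)) ∧
      (∀ l : ℕ, 1 ≤ l → (far w f l : ℝ) ≤ K ^ w * ((n : ℝ) / l) * (Real.log n ^ 2 + x)) ∧
      (∀ l : ℕ, 1 ≤ l → l ≤ n → cutArea w f l ≤ K ^ w * (n * l) * (Real.log n ^ 2 + x))} : ℝ) := by
  obtain ⟨K, hK, h⟩ := Run7.h738.PG.all_close
  refine ⟨K + 27, by linarith, fun w n hw hn x hx => ?_⟩
  have h1 := h w n hw hn x hx
  have hn' : (2 : ℝ) ≤ n := by exact_mod_cast hn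
  have hlog2 : (0.69 : ℝ) < Real.log 2 := by
    have := Real.log_two_gt_d9
    linarith
  set L := Real.log (n : ℝ) with hL
  have hLb : (0.69 : ℝ) < L := hlog2.trans_le (Real.log_le_log (by norm_num) hn')
  have hL2 : (0.47 : ℝ) ≤ L ^ 2 := by nlinarith
  have hLx : 0 < L ^ 2 + x := by positivity
  have hKw : K ^ w ≤ (K + 27) ^ w := pow_le_pow_left₀ (by linarith) (by linarith) w
  have h9w : 9 ^ w + K ^ w * (L ^ 2 + x) ≤ (K + 27) ^ w * (L ^ 2 + x) := by
    have hw3 : (3 : ℝ) ≤ 3 ^ w := le_self_pow₀ (by norm_num) (by omega)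
    have e1 : (27 : ℝ) ^ w = 9 ^ w * 3 ^ w := by rw [← mul_pow]; norm_num
    have h4 : (9 : ℝ) ^ w ≤ 27 ^ w * (L ^ 2 + x) := by
      rw [e1, mul_assoc]
      refine le_mul_of_one_le_right (by positivity) ?_
      nlinarith
    have h5 : K ^ w + 27 ^ w ≤ (K + 27) ^ w :=
      pow_add_pow_le (by positivity) (by norm_num) (by omega)
    have h6 := mul_le_mul_of_nonneg_right h5 hLx.le
    linarith
  have e0 : (Nat.card {f : ZMod (2 * n) → ℤ × ℤ // IsPolygon n f}) =
      ({f | Run7.h738.PG.Loop (2 * n) f} : Set (ZMod (2 * n) → ℤ × ℤ)).ncard :=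
    Nat.card_coe_set_eq _
  have hfin := Run7.h738.PG.Loop_finite (2 * n) (by omega)
  set A : Set (ZMod (2 * n) → ℤ × ℤ) := {f | Run7.h738.PG.Loop (2 * n) f} with hA
  set B : Set (ZMod (2 * n) → ℤ × ℤ) := {f | Run7.h738.PG.Loop (2 * n) f ∧
      ¬ ((∀ (s : ZMod (2 * n)) (a : ℕ),
          (Run7.h738.PG.XA w f s a : ℝ) ≤ K ^ w * (L ^ 2 + x)) ∧
        ∀ l : ℕ, 1 ≤ l → (Run7.h738.PG.FA w f l : ℝ) ≤
          K ^ w * ((n : ℝ) / l) * (L ^ 2 + x))} with hB
  set C : Set (ZMod (2 * n) → ℤ × ℤ) := {f | IsPolygon n f ∧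
      (∀ (s : ZMod (2 * n)) (a : ℕ), (cross w f s a : ℝ) ≤ (K + 27) ^ w * (L ^ 2 + x)) ∧
      (∀ l : ℕ, 1 ≤ l → (far w f l : ℝ) ≤ (K + 27) ^ w * ((n : ℝ) / l) * (L ^ 2 + x)) ∧
      (∀ l : ℕ, 1 ≤ l → l ≤ n → cutArea w f l ≤ (K + 27) ^ w * (n * l) * (L ^ 2 + x))} with hC
  have e1 : (Nat.card {f : ZMod (2 * n) → ℤ × ℤ // IsPolygon n f ∧
      (∀ (s : ZMod (2 * n)) (a : ℕ), (cross w f s a : ℝ) ≤ (K + 27) ^ w * (L ^ 2 + x)) ∧
      (∀ l : ℕ, 1 ≤ l → (far w f l : ℝ) ≤ (K + 27) ^ w * ((n : ℝ) / l) * (L ^ 2 + x)) ∧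
      (∀ l : ℕ, 1 ≤ l → l ≤ n → cutArea w f l ≤ (K + 27) ^ w * (n * l) * (L ^ 2 + x))}) =
      C.ncard := Nat.card_coe_set_eq _
  rw [e0, e1]
  have hsub : A ⊆ B ∪ C := by
    intro f hf
    by_cases hb : f ∈ B
    · exact Or.inl hb
    · right
      have hf' : Run7.h738.PG.Loop (2 * n) f := hf
      have hg : (∀ (s : ZMod (2 * n)) (a : ℕ),
          (Run7.h738.PG.XA w f s a : ℝ) ≤ K ^ w * (L ^ 2 + x)) ∧
        ∀ l : ℕ, 1 ≤ l → (Run7.h738.PG.FA w f l : ℝ) ≤
          K ^ w * ((n : ℝ) / l) * (L ^ 2 + x) := by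
        by_contra hc
        exact hb ⟨hf', hc⟩
      refine ⟨hf', fun s a => ?_, fun l hl => ?_, fun l hl hln => ?_⟩
      · rw [cross_eq]
        exact (hg.1 s a).trans (mul_le_mul_of_nonneg_right hKw hLx.le)
      · rw [far_eq]
        refine (hg.2 l hl).trans ?_
        refine mul_le_mul_of_nonneg_right (mul_le_mul_of_nonneg_right hKw ?_) hLx.le
        positivity
      · rw [cut_eq]
        have hM : ∀ l : ℕ, 1 ≤ l → (Run7.h738.PG.FA w f l : ℝ) ≤
            (K ^ w * (L ^ 2 + x)) * ((n : ℝ) / l) := by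
          intro l hl
          refine (hg.2 l hl).trans_eq ?_
          ring
        refine (Run7.h738.PG.cut_le w (by omega) hf' (by positivity) hM hl hln).trans ?_
        have := mul_le_mul_of_nonneg_right h9w (by positivity : (0 : ℝ) ≤ (n : ℝ) * l)
        linarith
  have hBf : B.Finite := hfin.subset (fun f hf => hf.1)
  have hCf : C.Finite := hfin.subset (fun f hf => hf.1)
  have h2 := (Set.ncard_le_ncard hsub (hBf.union hCf)).trans (Set.ncard_union_le _ _)
  have h3 : (A.ncard : ℝ) ≤ B.ncard + C.ncard := by exact_mod_cast h2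
  have h4 : (B.ncard : ℝ) ≤ Real.exp (-x) * A.ncard := h1
  linarith

end Pool.Agent.Results.MP_f6626d_co.NearDoublePoints
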