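import Pool.Agent.Run7.h106.AW.Gq5

/-!
Self-avoiding polygons on the square lattice: analytic continuation in the perimeter variable of the
generating function by perimeter and area, uniformly in the area variable.
-/

set_option autoImplicit false

namespace Pool.Agent.Results.MP_f6626d_co.PerimeterAreaContinuation

open Filter Topology

/-- `ω` is an `n`-step self-avoiding walk on `ℤ²` started at the origin. -/
def IsSAW (n : ℕ) (ω : Fin (n + 1) → ℤ × ℤ) : Prop :=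
  ω 0 = (0, 0) ∧
  (∀ i : Fin n, |(ω i.succ).1 - (ω i.castSucc).1| + |(ω i.succ).2 - (ω i.castSucc).2| = 1) ∧
  Function.Injective ω

/-- the number of `n`-step self-avoiding walks on `ℤ²` started at the origin -/
noncomputable def c (n : ℕ) : ℕ := {ω | IsSAW n ω}.ncard

/-- a closed nearest-neighbour loop on `ℤ²` with `m` steps, rooted at the origin and oriented,
that visits no vertex twice -/
def IsLoop (m : ℕ) (f : ZMod m → ℤ × ℤ) : Prop :=
  f 0 = 0 ∧ Function.Injective f ∧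
    ∀ i : ZMod m, |(f (i + 1)).1 - (f i).1| + |(f (i + 1)).2 - (f i).2| = 1

/-- the edge from `f k` to `f (k+1)` is horizontal, joins the columns `x = a` and `x = a + 1`, and
has height larger than `b`: it lies above the unit cell `[a, a+1] × [b, b+1]` -/
def Above (m : ℕ) (f : ZMod m → ℤ × ℤ) (a b : ℤ) (k : ZMod m) : Prop :=
  (((f k).1 = a ∧ (f (k + 1)).1 = a + 1) ∨ ((f k).1 = a + 1 ∧ (f (k + 1)).1 = a)) ∧ b < (f k).2

/-- the unit cell `[a, a+1] × [b, b+1]` is enclosed by the loop: the vertical ray from the cell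
upwards crosses an odd number of edges -/
def Encl (m : ℕ) (f : ZMod m → ℤ × ℤ) (c : ℤ × ℤ) : Prop :=
  Odd (Nat.card {k : ZMod m // Above m f c.1 c.2 k})

/-- the area: the number of unit cells enclosed by the loop -/
noncomputable def area (m : ℕ) (f : ZMod m → ℤ × ℤ) : ℕ := Nat.card {c : ℤ × ℤ // Encl m f c}

/-- The sum of `φ` over the self-avoiding polygons of perimeter `2 n` up to translation, for a
function `φ` of loops which does not depend on the starting point and the orientation: every polygon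
corresponds to `4 n` loops from the origin. -/
noncomputable def S (n : ℕ) (φ : (ZMod (2 * n) → ℤ × ℤ) → ℝ) : ℝ :=
  (∑ᶠ f ∈ {f : ZMod (2 * n) → ℤ × ℤ | IsLoop (2 * n) f}, φ f) / (4 * (n : ℝ))

/-- `cos (2 arg z)` for `z ≠ 0` -/
noncomputable def cos2 (z : ℂ) : ℝ := (z ^ 2).re / ‖z‖ ^ 2

/-- The domain `|z| < (1 + δ (1 - cos (2 arg z))) / ν`: the disc `|z| < 1 / ν` enlarged at all
points of the circle `|z| = 1 / ν` except `±1 / ν`. -/
def Dom (ν δ : ℝ) : Set ℂ := {z | ν * ‖z‖ < 1 + δ * (1 - cos2 z)}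

open Pool.Agent.H976R2 Pool.Agent.N929.EZ Pool.Agent.H739K Run7.h106.AC Run7.h106.AW

/-- **Theorem.** Let `μ` be the connective constant of `ℤ²` and `G(z, q) = ∑_P q^(area P) z^(2n)` the
generating function of the self-avoiding polygons `P` up to translation by perimeter `2n ≥ 4` and
area. There are `κ > 1`, `δ > 0` and `K` such that for every `ν` in `[μ/κ, μ]` the open connected set
`Dom ν δ`, which contains the disc `|z| < 1/ν` and all points of the circle `|z| = 1/ν` except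
`1/ν` and `-1/ν`, has the following property for every `q` in `[1/2, 1]` for which `G(x, q)`
converges for all `x` in `[0, 1/ν)` (for `ν = μ` this holds for all `q` in `[1/2, 1]`): the
function `G(z, q)` of `z` extends to a holomorphic function `F` on `Dom ν δ`, and
`|F'(z)| ≤ K + |F'(x)|` for all `z` in `Dom ν δ` with `z² ∉ [0, ∞)`, where
`x = (1 - δ (1 - cos (2 arg z))) / ν < 1/ν`. The constants do not depend on `q` and `ν`. In
particular `1/ν` may be the radius of convergence of `G(·, q)` if this radius is at most `κ/μ`. -/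
theorem result : ∃ μ : ℝ, 1 ≤ μ ∧
    Tendsto (fun n : ℕ => (c n : ℝ) ^ (1 / (n : ℝ))) atTop (𝓝 μ) ∧
    (∀ q : ℝ, 1 / 2 ≤ q → q ≤ 1 → ∀ x : ℝ, 0 ≤ x → μ * x < 1 → Summable (fun n : ℕ =>
      S (n + 2) (fun f => q ^ area (2 * (n + 2)) f) * x ^ (2 * (n + 2)))) ∧
    ∃ κ : ℝ, 1 < κ ∧ ∃ δ : ℝ, 0 < δ ∧ δ ≤ 1 / 4 ∧ ∃ K : ℝ, ∀ ν : ℝ, μ / κ ≤ ν → ν ≤ μ →
    (IsOpen (Dom ν δ) ∧ IsPreconnected (Dom ν δ) ∧ (∀ z : ℂ, ν * ‖z‖ < 1 → z ∈ Dom ν δ) ∧
      ∀ z : ℂ, ν * ‖z‖ = 1 → z ≠ ((1 / ν : ℝ) : ℂ) → z ≠ ((-(1 / ν) : ℝ) : ℂ) → z ∈ Dom ν δ) ∧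
    ∀ q : ℝ, 1 / 2 ≤ q → q ≤ 1 →
      (∀ x : ℝ, 0 ≤ x → ν * x < 1 → Summable (fun n : ℕ =>
        S (n + 2) (fun f => q ^ area (2 * (n + 2)) f) * x ^ (2 * (n + 2)))) →
      ∃ F : ℂ → ℂ, DifferentiableOn ℂ F (Dom ν δ) ∧
      (∀ z : ℂ, ν * ‖z‖ < 1 →
        HasSum (fun n : ℕ => (S (n + 2) (fun f => q ^ area (2 * (n + 2)) f) : ℂ) *
          z ^ (2 * (n + 2))) (F z)) ∧
      ∀ z ∈ Dom ν δ, z ≠ 0 → cos2 z < 1 →
        ‖deriv F z‖ ≤ K + ‖deriv F (((1 - δ * (1 - cos2 z)) / ν : ℝ) : ℂ)‖ := by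
  have hμ : 1 ≤ H981.mu := by linarith [Pool.Agent.H739K.mu_ge]
  have hμ0 : 0 < H981.mu := by linarith
  have eS : ∀ (q : ℝ) (n : ℕ), S (n + 2) (fun f => q ^ area (2 * (n + 2)) f) =
      (∑ w ∈ KP (2 * (n + 2) - 1), Gq q w) / (4 * ((n + 2 : ℕ) : ℝ)) := by
    intro q n
    unfold S
    rw [← loop_Gq (by omega) q]
    rfl
  have hsum : ∀ q : ℝ, 1 / 2 ≤ q → q ≤ 1 → ∀ x : ℝ, 0 ≤ x → H981.mu * x < 1 →
      Summable (fun n : ℕ =>
      S (n + 2) (fun f => q ^ area (2 * (n + 2)) f) * x ^ (2 * (n + 2))) := by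
    intro q hq hq1 x hx0 hx
    obtain ⟨δ, hδ, hδ4, K, hK, hac⟩ := gq_ac
    obtain ⟨f, f1, f2⟩ := hac q hq hq1
    obtain ⟨F, F1, F2⟩ := poly_series hδ (G := Gq q)
      (fun w hw => by unfold Gq; rw [if_neg hw]) f1
    have h1 := (F2 (x : ℂ) (by rwa [Complex.norm_real, Real.norm_of_nonneg hx0])).summable
    rw [← Complex.summable_ofReal]
    refine h1.congr fun n => ?_
    rw [eS]
    push_cast
    ring
  refine ⟨H981.mu, hμ, c_lim, hsum, ?_⟩
  obtain ⟨κ, hκ1, hκ2, δ, hδ, hδ4, K, hK, hac⟩ := kp5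
  refine ⟨κ, hκ1, δ, hδ, hδ4, K, fun ν hν1 hν2 => ?_⟩
  obtain ⟨hν, h'⟩ := hac ν (by
    rw [div_le_iff₀ (by linarith)] at hν1
    linarith) hν2
  obtain ⟨d1, d2, d3, d4⟩ := dom_nu hδ hν
  refine ⟨⟨d1, d2, d3, d4⟩, fun q hq hq1 hS => ?_⟩
  obtain ⟨F, F1, F2, F3⟩ := h' (Gq q) (fun w => Gq_nonneg (by linarith) w)
    (fun w => Gq_le (by linarith) hq1 w) (fun w hw => by unfold Gq; rw [if_neg hw])
    (gq_hq hq hq1)
    (fun x hx0 hx => (hS x hx0 hx).congr fun n => by rw [eS])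
  refine ⟨F, F1, fun z hz => ?_, F3⟩
  refine (congrArg (fun g => HasSum g (F z)) ?_).mp (F2 z hz)
  funext n
  rw [eS]

end Pool.Agent.Results.MP_f6626d_co.PerimeterAreaContinuation
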