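import Pool.Agent.Run7.h647.TY.Scales

/-!
# The two sides of a long self-avoiding polygon near a typical site, at all scales

Uniform self-avoiding polygons of perimeter `2 n` on the square lattice, with a uniform root.  We
prove bounds *uniform in `n`* for the local structure of the region enclosed by the polygon, near the
root: with probability at least `1 - K ^ r (log R) ^ 2 / R`, the square `B` of side `2 R` about the
root contains at least `R / (4 r)` pairwise disjoint `r × r` squares which the polygon does not visit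
and which it encloses, and as many such squares which it does not enclose (unless the polygon is
contained in `B`).  With probability at least `1 - C R₀ ^ (ε - 1)` this is true at all the scales
`R ≥ R₀` and for all `r ≤ κ log R` simultaneously.

Proof.  Let `Q` be a square about the root, and `b` a time with `f b` outside of `B`.  If all the
empty `r × r` squares along the boundary of `Q` are on the same side of the polygon, then there is a
pair of close sites near the boundary of `Q`, one on each of the two arcs between `f 0` and `f b`.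
These pairs are of three kinds: close sites across the time `0` with lag at most `L = 2 (2 R + 1) ^ 2`,
close sites across the time `b` with lag at most `L`, and close sites with lag more than `L`, one of
them at a time in `[0, L]`.  At least half of the times in `[1, L]` are allowed as `b`, and we choose
the one with the smallest number of pairs of the second kind.  The mean number of the pairs is then at
most `3 ∑ min (d, L + 1) P(f 0 and f d are close)`, which is bounded by `K ^ r (log R) ^ 2`,
uniformly in `n`: here we use an average inequality for the arcs of polygons and the exponential tails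
of the number of close pairs (helper738, in this run).
-/

set_option autoImplicit false

namespace Pool.Agent.Results.MP_f6626d_co.TypicalSites

/-- `f` is a self-avoiding polygon of perimeter `2 n`, with a root (which is the origin) and an
orientation: a closed nearest-neighbour walk of `2 n` steps which visits no vertex twice. (Every
polygon, up to translation, has exactly `4 n` such descriptions, so that a uniform `f` is a uniform
polygon with a uniform root and orientation.) -/
def IsPolygon (n : ℕ) (f : ZMod (2 * n) → ℤ × ℤ) : Prop :=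
  f 0 = 0 ∧ Function.Injective f ∧
    ∀ i : ZMod (2 * n), |(f (i + 1)).1 - (f i).1| + |(f (i + 1)).2 - (f i).2| = 1

/-- The probability of an event under the uniform probability measure on the polygons of perimeter
`2 n`. -/
noncomputable def prob (n : ℕ) (E : (ZMod (2 * n) → ℤ × ℤ) → Prop) : ℝ :=
  (({f | IsPolygon n f ∧ E f} : Set (ZMod (2 * n) → ℤ × ℤ)).ncard : ℝ) /
    ({f | IsPolygon n f} : Set (ZMod (2 * n) → ℤ × ℤ)).ncard

/-- The unit cell with the lower left corner `p` is enclosed by the polygon: the horizontal half-line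
from its centre to the left crosses an odd number of (vertical) edges of the polygon. If the site `p`
is not a site of the polygon, this says that `p` is in the bounded component of the complement of the
polygon. -/
def Enclosed {n : ℕ} (f : ZMod (2 * n) → ℤ × ℤ) (p : ℤ × ℤ) : Prop :=
  Odd ({i | (f i).1 = (f (i + 1)).1 ∧ (f i).1 ≤ p.1 ∧ min (f i).2 (f (i + 1)).2 = p.2} :
    Set (ZMod (2 * n))).ncard

/-- The square with the lower left corner `u` and `r × r` sites. -/
def sq (u : ℤ × ℤ) (r : ℕ) : Set (ℤ × ℤ) :=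
  {p | u.1 ≤ p.1 ∧ p.1 < u.1 + r ∧ u.2 ≤ p.2 ∧ p.2 < u.2 + r}

/-- The sites in the square of side `2 R` with the centre `v`. -/
def box (v : ℤ × ℤ) (R : ℕ) : Set (ℤ × ℤ) := {p | |p.1 - v.1| ≤ R ∧ |p.2 - v.2| ≤ R}

/-- The `r × r` squares with the lower left corners in `U` are pairwise disjoint, contain no site of
the polygon, and are enclosed by the polygon. -/
def Inner {n : ℕ} (f : ZMod (2 * n) → ℤ × ℤ) (r : ℕ) (U : Finset (ℤ × ℤ)) : Prop :=
  (∀ u ∈ U, ∀ p ∈ sq u r, (∀ i, f i ≠ p) ∧ Enclosed f p) ∧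
    ∀ u ∈ U, ∀ u' ∈ U, u ≠ u' → Disjoint (sq u r) (sq u' r)

/-- The `r × r` squares with the lower left corners in `U` are pairwise disjoint, contain no site of
the polygon, and are not enclosed by the polygon. -/
def Outer {n : ℕ} (f : ZMod (2 * n) → ℤ × ℤ) (r : ℕ) (U : Finset (ℤ × ℤ)) : Prop :=
  (∀ u ∈ U, ∀ p ∈ sq u r, (∀ i, f i ≠ p) ∧ ¬ Enclosed f p) ∧
    ∀ u ∈ U, ∀ u' ∈ U, u ≠ u' → Disjoint (sq u r) (sq u' r)

/-- In the square of side `2 R` about the root there are at least `R / (c r)` inner and at least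
`R / (c r)` outer squares of side `r`, provided that the polygon is not contained in the large
square. -/
def NearRoot {n : ℕ} (f : ZMod (2 * n) → ℤ × ℤ) (r R c : ℕ) : Prop :=
  (∃ j, f j ∉ box (f 0) R) → ∃ U V : Finset (ℤ × ℤ), R ≤ c * r * U.card ∧ R ≤ c * r * V.card ∧
    Inner f r U ∧ Outer f r V ∧ ∀ u ∈ U ∪ V, sq u r ⊆ box (f 0) R

open Run7.h647.EN in
theorem to_inner {n : ℕ} {f : ZMod (2 * n) → ℤ × ℤ} (hn : 2 ≤ n) {r : ℕ} {U : Finset (ℤ × ℤ)}
    (h : Sqs f r (fun p => ∀ s', I (Fs f s') (2 * n) p ≠ 0) U) : Inner f r U := by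
  have : NeZero (2 * n) := ⟨by omega⟩
  refine ⟨fun u hu p hp => ⟨(h.1 u hu p hp).1, ?_⟩, h.2⟩
  have h1 := (h.1 u hu p hp).2 0
  have h2 : I (Fs f 0) (2 * n) p = 1 := by
    generalize I (Fs f 0) (2 * n) p = z at h1 ⊢
    revert z
    decide
  exact (I_Inside f 0 p).1 h2

open Run7.h647.EN in
theorem to_outer {n : ℕ} {f : ZMod (2 * n) → ℤ × ℤ} (hn : 2 ≤ n) {r : ℕ} {U : Finset (ℤ × ℤ)}
    (h : Sqs f r (fun p => ∀ s', I (Fs f s') (2 * n) p ≠ 1) U) : Outer f r U := by
  have : NeZero (2 * n) := ⟨by omega⟩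
  refine ⟨fun u hu p hp => ⟨(h.1 u hu p hp).1, ?_⟩, h.2⟩
  exact fun h2 => (h.1 u hu p hp).2 0 ((I_Inside f 0 p).2 h2)

theorem to_near {n : ℕ} (hn : 2 ≤ n) {f : ZMod (2 * n) → ℤ × ℤ} {r R c : ℕ}
    (h : Run7.h647.TY.Good f r R c) : NearRoot f r R c := by
  rintro ⟨j, hj⟩
  have hQ : ¬ Run7.h647.EN.Q (f 0) R (f j) := by
    intro hQ
    apply hj
    unfold Run7.h647.EN.Q at hQ
    unfold box
    have h1 : |(f j).1 - (f 0).1| ≤ (R : ℤ) := by rw [abs_le]; omega
    have h2 : |(f j).2 - (f 0).2| ≤ (R : ℤ) := by rw [abs_le]; omega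
    exact ⟨h1, h2⟩
  obtain ⟨U, hU1, hU2, hU3⟩ := h ⟨j, hQ⟩ 0
  obtain ⟨V, hV1, hV2, hV3⟩ := h ⟨j, hQ⟩ 1
  refine ⟨U, V, hU1, hV1, to_inner hn hU2, to_outer hn hV2, ?_⟩
  intro u hu p hp
  rcases Finset.mem_union.1 hu with hu | hu
  · exact hU3 u hu p hp
  · exact hV3 u hu p hp

theorem prob_le {n : ℕ} (hn : 2 ≤ n) (E : (ZMod (2 * n) → ℤ × ℤ) → Prop) (c : ℝ) (hc : 0 ≤ c)
    (E' : (ZMod (2 * n) → ℤ × ℤ) → Prop) (hE : ∀ f, IsPolygon n f → E f → E' f)
    (h : (({f | Run7.h738.PG.Loop (2 * n) f ∧ E' f} : Set (ZMod (2 * n) → ℤ × ℤ)).ncard : ℝ) ≤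
      c * (({f | Run7.h738.PG.Loop (2 * n) f} : Set (ZMod (2 * n) → ℤ × ℤ)).ncard : ℝ)) :
    prob n E ≤ c := by
  unfold prob
  refine div_le_of_le_mul₀ (Nat.cast_nonneg _) hc (le_trans ?_ h)
  rw [Nat.cast_le]
  refine Set.ncard_le_ncard (fun f hf => ⟨hf.1, hE f hf.1 hf.2⟩) ?_
  exact (Run7.h738.PG.Loop_finite (2 * n) (by omega)).subset (fun f hf => hf.1)

/-- **The two sides of a polygon near a typical site.**  There is `K ≥ 2` such that the following
holds for uniform polygons of perimeter `2 n` with a uniform root, for all `n ≥ 2`.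
(1) For all `r ≥ 1` and `R ≥ 2`, with probability at least `1 - K ^ r (log R) ^ 2 / R`: if the polygon
is not contained in the square `B` of side `2 R` about the root, then `B` contains at least
`R / (4 r)` pairwise disjoint `r × r` squares without sites of the polygon which are enclosed by the
polygon, and at least `R / (4 r)` which are not enclosed.
(2) For `0 < ε < 1` there is `C` (which does not depend on `n`) such that for all `R₀ ≥ 2`, with
probability at least `1 - C R₀ ^ (ε - 1)`, the property in (1), with `R / (8 r)` in place of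
`R / (4 r)`, holds for all `R ≥ R₀` and all `r ≥ 1` with `K ^ r ≤ R ^ (ε / 2)` simultaneously. -/
theorem result : ∃ K : ℝ, 2 ≤ K ∧
    (∀ n r R : ℕ, 2 ≤ n → 1 ≤ r → 2 ≤ R →
      prob n (fun f => ¬ NearRoot f r R 4) ≤ K ^ r * Real.log R ^ 2 / R) ∧
    ∀ ε : ℝ, 0 < ε → ε < 1 → ∃ C : ℝ, 0 < C ∧ ∀ n R₀ : ℕ, 2 ≤ n → 2 ≤ R₀ →
      prob n (fun f => ¬ ∀ R r : ℕ, R₀ ≤ R → 1 ≤ r → K ^ r ≤ (R : ℝ) ^ (ε / 2) →
        NearRoot f r R 8) ≤ C * (R₀ : ℝ) ^ (ε - 1) := by
  obtain ⟨K, hK, h⟩ := Run7.h647.TY.one_scale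
  refine ⟨K, hK, fun n r R hn hr hR => ?_, fun ε hε hε1 => ?_⟩
  · exact prob_le hn _ _ (by positivity) (fun f => ¬ Run7.h647.TY.Good f r R 4)
      (fun f _ hbad hG => hbad (to_near hn hG)) (h n r R hn hr hR)
  · obtain ⟨C, hC, h2⟩ := Run7.h647.TY.all_scales hK h hε hε1
    refine ⟨C, hC, fun n R₀ hn hR₀ => ?_⟩
    exact prob_le hn _ _ (by positivity) (fun f => ¬ ∀ R r : ℕ, R₀ ≤ R → 1 ≤ r →
      K ^ r ≤ (R : ℝ) ^ (ε / 2) → Run7.h647.TY.Good f r R 8)
      (fun f _ hbad hG => hbad (fun R r h3 h4 h5 => to_near hn (hG R r h3 h4 h5))) (h2 n R₀ hn hR₀)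

end Pool.Agent.Results.MP_f6626d_co.TypicalSites
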